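import Mathlib
import Pool.Agent.Helper92.CY.Defs

/-!
# First order terms at the point `(e0, e0)` (CY-1)
-/

set_option autoImplicit false

namespace Pool.Agent.Helper12.CYJ

open MvPolynomial Pool.Agent.Helper37.RP Pool.Agent.Helper76.CY Pool.Agent.Helper92.CY

variable {k : Type*} [Field k]

theorem c1_mul (f g : PowerSeries k) :
    PowerSeries.coeff 1 (f * g) = PowerSeries.constantCoeff f * PowerSeries.coeff 1 g +
      PowerSeries.coeff 1 f * PowerSeries.constantCoeff g := by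
  rw [PowerSeries.coeff_mul, Finset.Nat.antidiagonal_succ]
  simp

theorem c1_C (a : k) : PowerSeries.coeff 1 (algebraMap k (PowerSeries k) a) = 0 := by
  rw [PowerSeries.algebraMap_apply]
  simp

theorem c0_C (a : k) : PowerSeries.constantCoeff (algebraMap k (PowerSeries k) a) = a := by
  rw [PowerSeries.algebraMap_apply]
  simp

/-- A point with values in `k[[s]]` over `e0`. -/
structure Pt (y : Fin 4 → PowerSeries k) : Prop where
  z : y 0 = 1
  c : ∀ i, i ≠ 0 → PowerSeries.constantCoeff (y i) = 0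

variable {y : Fin 4 → PowerSeries k}

theorem Pt.c0 (h : Pt y) : PowerSeries.constantCoeff (y 0) = 1 ∧
    PowerSeries.constantCoeff (y 1) = 0 ∧ PowerSeries.constantCoeff (y 2) = 0 ∧
    PowerSeries.constantCoeff (y 3) = 0 ∧ PowerSeries.coeff 1 (y 0) = 0 := by
  refine ⟨?_, h.c 1 (by decide), h.c 2 (by decide), h.c 3 (by decide), ?_⟩
  · rw [h.z, map_one]
  · rw [h.z, PowerSeries.coeff_one]
    simp

theorem Pt.lin0 (h : Pt y) (L : Matrix (Fin 4) (Fin 4) k) (i : Fin 4) :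
    PowerSeries.constantCoeff (aeval y (lin L i)) = L i 0 := by
  obtain ⟨h0, h1, h2, h3, h4⟩ := h.c0
  rw [aeval_lin, Fin.sum_univ_four]
  simp only [map_add, map_mul, h0, h1, h2, h3, c0_C]
  ring

theorem Pt.lin1 (h : Pt y) (L : Matrix (Fin 4) (Fin 4) k) (i : Fin 4) :
    PowerSeries.coeff 1 (aeval y (lin L i)) = L i 1 * PowerSeries.coeff 1 (y 1) +
      L i 2 * PowerSeries.coeff 1 (y 2) + L i 3 * PowerSeries.coeff 1 (y 3) := by
  obtain ⟨h0, h1, h2, h3, h4⟩ := h.c0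
  rw [aeval_lin, Fin.sum_univ_four]
  simp only [map_add, c1_mul, h0, h1, h2, h3, h4, c0_C, c1_C]
  ring

theorem Pt.quad0 (h : Pt y) (Q : Fin 4 → Fin 4 → Fin 4 → Fin 4 → k) (i j : Fin 4) :
    PowerSeries.constantCoeff (aeval y (quad Q i j)) = Q i j 0 0 := by
  obtain ⟨h0, h1, h2, h3, h4⟩ := h.c0
  rw [aeval_quad]
  simp only [Fin.sum_univ_four, map_add, map_mul, h0, h1, h2, h3, c0_C]
  ring

theorem Pt.quad1 (h : Pt y) (Q : Fin 4 → Fin 4 → Fin 4 → Fin 4 → k) (i j : Fin 4) :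
    PowerSeries.coeff 1 (aeval y (quad Q i j)) =
      (Q i j 0 1 + Q i j 1 0) * PowerSeries.coeff 1 (y 1) +
      (Q i j 0 2 + Q i j 2 0) * PowerSeries.coeff 1 (y 2) +
      (Q i j 0 3 + Q i j 3 0) * PowerSeries.coeff 1 (y 3) := by
  obtain ⟨h0, h1, h2, h3, h4⟩ := h.c0
  rw [aeval_quad]
  simp only [Fin.sum_univ_four, map_add, map_mul, c1_mul, h0, h1, h2, h3, h4, c0_C, c1_C]
  ring

section gram

variable {S : Type*} [CommRing S] (a b : Fin 4 → S) (M : Matrix (Fin 4) (Fin 4) S)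

theorem N4_c0 : N4 a b 0 0 = 0 ∧ N4 a b 1 0 = -plk a b 2 3 ∧ N4 a b 2 0 = plk a b 1 3 ∧
    N4 a b 3 0 = -plk a b 1 2 := ⟨rfl, rfl, rfl, rfl⟩

theorem N4_c1 : N4 a b 0 1 = plk a b 2 3 ∧ N4 a b 1 1 = 0 ∧ N4 a b 2 1 = -plk a b 0 3 ∧
    N4 a b 3 1 = plk a b 0 2 := ⟨rfl, rfl, rfl, rfl⟩

theorem N4_c2 : N4 a b 0 2 = -plk a b 1 3 ∧ N4 a b 1 2 = plk a b 0 3 ∧ N4 a b 2 2 = 0 ∧
    N4 a b 3 2 = -plk a b 0 1 := ⟨rfl, rfl, rfl, rfl⟩

theorem N4_c3 : N4 a b 0 3 = plk a b 1 2 ∧ N4 a b 1 3 = -plk a b 0 2 ∧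
    N4 a b 2 3 = plk a b 0 1 ∧ N4 a b 3 3 = 0 := ⟨rfl, rfl, rfl, rfl⟩

theorem gram_eq (N : Matrix (Fin 4) (Fin 4) S) (p q : Fin 4) :
    gram M N p q = 2 * ∑ i, ∑ m, N i p * M i m * N m q := rfl

end gram

theorem std_L {c : Ix → k} (hc : Std c) : pL c 0 0 = 0 ∧ pL c 0 1 = 1 ∧ pL c 0 2 = 0 ∧
    pL c 0 3 = 0 ∧ pL c 1 0 = 0 ∧ pL c 1 1 = 0 ∧ pL c 1 2 = 0 ∧ pL c 1 3 = 1 := by
  refine ⟨?_, ?_, ?_, ?_, ?_, ?_, ?_, ?_⟩ <;> first
    | exact (hc.l0 _).trans (if_neg (by decide))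
    | exact (hc.l0 _).trans (if_pos rfl)
    | exact (hc.l1 _).trans (if_neg (by decide))
    | exact (hc.l1 _).trans (if_pos rfl)

theorem std_M {c : Ix → k} (hc : Std c) : pL' c 0 0 = 0 ∧ pL' c 0 1 = 0 ∧ pL' c 0 2 = 1 ∧
    pL' c 0 3 = 0 ∧ pL' c 1 0 = 1 ∧ pL' c 1 1 = 0 ∧ pL' c 1 2 = 0 ∧ pL' c 1 3 = 0 := by
  refine ⟨?_, ?_, ?_, ?_, ?_, ?_, ?_, ?_⟩ <;> first
    | exact (hc.m0 _).trans (if_neg (by decide))
    | exact (hc.m0 _).trans (if_pos rfl)
    | exact (hc.m1 _).trans (if_neg (by decide))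
    | exact (hc.m1 _).trans (if_pos rfl)

/-- CY-1a. Tangent space at `q`. -/
theorem jet_on {c : Ix → k} (hc : Std c) (h2 : (2 : k) ≠ 0) {x y : Fin 4 → PowerSeries k}
    (h : Near c x y) :
    PowerSeries.coeff 1 (x 2) = 0 ∧ PowerSeries.coeff 1 (y 1) = 0 ∧
      PowerSeries.coeff 1 (y 2) = - PowerSeries.coeff 1 (x 1) := by
  have px : Pt x := ⟨h.x0, h.cx⟩
  have py : Pt y := ⟨h.y0, h.cy⟩
  obtain ⟨x0, x1, x2, x3, x4⟩ := px.c0
  obtain ⟨e1, e2, e3⟩ := h.on
  rw [onL_iff] at e1 e2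
  rw [onQ_iff] at e3
  have f1 := congrArg (PowerSeries.coeff 1) e1
  have f2 := congrArg (PowerSeries.coeff 1) e2
  have f3 := congrArg (PowerSeries.coeff 1) e3
  rw [map_zero] at f1 f2 f3
  simp only [Fin.sum_univ_four, map_add, c1_mul, py.lin0, py.lin1, x0, x1, x2, x3, x4] at f1 f2
  simp only [bil, Matrix.map_apply, Fin.sum_univ_four, map_add, map_mul, c1_mul, py.quad0,
    py.quad1, x0, x1, x2, x3, x4] at f3
  have q0 : pQ c 1 0 0 0 = 0 := by rw [← pQ_symm]; exact hc.q1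
  have q2 : pQ c 2 0 0 0 = 1 := by rw [← pQ_symm]; exact hc.q2
  have q3 : pQ c 3 0 0 0 = 0 := by rw [← pQ_symm]; exact hc.q3
  have q4 : ∀ j, pQ c 0 0 j 0 = 0 := fun j => by rw [← pQ_symm']; exact hc.q00 j
  obtain ⟨l00, l01, l02, l03, l10, l11, l12, l13⟩ := std_L hc
  obtain ⟨m00, m01, m02, m03, m10, m11, m12, m13⟩ := std_M hc
  simp only [l00, l01, l02, l03, l10, hc.l2, hc.l3] at f1
  simp only [m00, m01, m02, m03, m10, hc.m2, hc.m3] at f2
  simp only [hc.q00, hc.q1, hc.q2, hc.q3, q0, q2, q3, q4] at f3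
  have g3 : PowerSeries.coeff 1 (x 2) = 0 := by
    have : 2 * PowerSeries.coeff 1 (x 2) = 0 := by linear_combination f3
    exact (mul_eq_zero.1 this).resolve_left h2
  refine ⟨g3, ?_, ?_⟩
  · linear_combination f1 - g3
  · linear_combination f2

/-- CY-1b. First order terms of the forms over `y`. Only `Std c`, the constant terms of `y` and the
first order conditions `η1 = 0`, `η2 = - ξ1` are used. -/
theorem jet_G {c : Ix → k} (hc : Std c) (h2 : (2 : k) ≠ 0) {x y : Fin 4 → PowerSeries k}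
    (h : Near c x y) :
    PowerSeries.constantCoeff (aeval y (cG c 0 0)) = 2 ∧
      (∀ j, j ≠ 0 → PowerSeries.constantCoeff (aeval y (cG c 0 j)) = 0) ∧
      PowerSeries.coeff 1 (aeval y (cG c 0 1)) = 2 * PowerSeries.coeff 1 (x 1) ∧
      PowerSeries.coeff 1 (aeval y (cG c 0 2)) = 0 ∧
      PowerSeries.coeff 1 (aeval y (cG c 0 3)) =
        - 2 * F1 c * PowerSeries.coeff 1 (x 1) - 2 * del c * PowerSeries.coeff 1 (y 3) := by
  have py : Pt y := ⟨h.y0, h.cy⟩
  obtain ⟨g1, g2, g3⟩ := jet_on hc h2 h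
  obtain ⟨l00, l01, l02, l03, l10, l11, l12, l13⟩ := std_L hc
  obtain ⟨m00, m01, m02, m03, m10, m11, m12, m13⟩ := std_M hc
  obtain ⟨n00, n10, n20, n30⟩ := N4_c0 (fun i => aeval y (lin (pL c) i))
    (fun i => aeval y (lin (pL' c) i))
  obtain ⟨n01, n11, n21, n31⟩ := N4_c1 (fun i => aeval y (lin (pL c) i))
    (fun i => aeval y (lin (pL' c) i))
  obtain ⟨n02, n12, n22, n32⟩ := N4_c2 (fun i => aeval y (lin (pL c) i))
    (fun i => aeval y (lin (pL' c) i))
  obtain ⟨n03, n13, n23, n33⟩ := N4_c3 (fun i => aeval y (lin (pL c) i))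
    (fun i => aeval y (lin (pL' c) i))
  have q3 : pQ c 3 0 0 0 = 0 := by rw [← pQ_symm]; exact hc.q3
  have q1 : pQ c 1 0 0 0 = 0 := by rw [← pQ_symm]; exact hc.q1
  have q2 : pQ c 2 0 0 0 = 1 := by rw [← pQ_symm]; exact hc.q2
  have two1 : PowerSeries.coeff 1 (2 : PowerSeries k) = 0 := by
    have : (2 : PowerSeries k) = algebraMap k (PowerSeries k) 2 := (map_ofNat _ 2).symm
    rw [this, c1_C]
  have two0 : PowerSeries.constantCoeff (2 : PowerSeries k) = 2 := map_ofNat _ _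
  refine ⟨?_, ?_, ?_, ?_, ?_⟩
  · rw [cG, aeval_chow4, gram_eq]
    simp only [Fin.sum_univ_four, n00, n10, n20, n30, plk, Matrix.map_apply, map_mul, map_add,
      map_neg, map_sub, map_zero, two0, py.lin0, py.quad0, m10, hc.l2, l10, hc.m2, hc.m3, hc.l3,
      hc.qP]
    ring
  · intro j hj
    rw [cG, aeval_chow4, gram_eq]
    fin_cases j
    · exact absurd rfl hj
    · simp only [Fin.sum_univ_four, Fin.mk_one, Fin.reduceFinMk, n00, n10, n20, n30, n01, n11, n21, n31, plk, Matrix.map_apply,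
        map_mul, map_add, map_neg, map_sub, map_zero, two0, py.lin0, py.quad0, m10, hc.l2, l10, hc.m2,
        hc.m3, hc.l3, hc.qP, l00, m00]
      ring
    · simp only [Fin.sum_univ_four, Fin.mk_one, Fin.reduceFinMk, n00, n10, n20, n30, n02, n12, n22, n32, plk, Matrix.map_apply,
        map_mul, map_add, map_neg, map_sub, map_zero, two0, py.lin0, py.quad0, m10, hc.l2, l10, hc.m2,
        hc.m3, hc.l3, hc.qP, l00, m00]
      ring
    · simp only [Fin.sum_univ_four, Fin.mk_one, Fin.reduceFinMk, n00, n10, n20, n30, n03, n13, n23, n33, plk, Matrix.map_apply,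
        map_mul, map_add, map_neg, map_sub, map_zero, two0, py.lin0, py.quad0, m10, hc.l2, l10, hc.m2,
        hc.m3, hc.l3, hc.qP, l00, m00, q3]
      ring
  · rw [cG, aeval_chow4, gram_eq]
    simp only [Fin.sum_univ_four, n00, n10, n20, n30, n01, n11, n21, n31, plk, Matrix.map_apply,
      map_mul, map_add, map_neg, map_sub, map_zero, c1_mul, two0, two1, py.lin0, py.quad0, py.lin1, py.quad1,
      l00, l01, l02, l03, l10, l11, l12, l13, m00, m01, m02, m03, m10, m11, m12, m13,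
      hc.l2, hc.m2, hc.m3, hc.l3, hc.qP, q3, g2, g3]
    ring
  · rw [cG, aeval_chow4, gram_eq]
    simp only [Fin.sum_univ_four, n00, n10, n20, n30, n02, n12, n22, n32, plk, Matrix.map_apply,
      map_mul, map_add, map_neg, map_sub, map_zero, c1_mul, two0, two1, py.lin0, py.quad0, py.lin1, py.quad1,
      l00, l01, l02, l03, l10, l11, l12, l13, m00, m01, m02, m03, m10, m11, m12, m13,
      hc.l2, hc.m2, hc.m3, hc.l3, hc.qP, q3, g2, g3]
    ring
  · rw [cG, aeval_chow4, gram_eq]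
    simp only [Fin.sum_univ_four, n00, n10, n20, n30, n03, n13, n23, n33, plk, Matrix.map_apply,
      map_mul, map_add, map_neg, map_sub, map_zero, c1_mul, two0, two1, py.lin0, py.quad0, py.lin1, py.quad1,
      l00, l01, l02, l03, l10, l11, l12, l13, m00, m01, m02, m03, m10, m11, m12, m13,
      hc.l2, hc.m2, hc.m3, hc.l3, hc.qP, q3, q1, q2, g2, g3, F1, del]
    have r1 := pQ_symm c 3 0 0 2
    have r2 := pQ_symm c 3 0 0 3
    have r3 := pQ_symm' c 3 0 2 0
    have r4 := pQ_symm' c 3 0 3 0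
    have r5 := pQ_symm c 3 1 0 0
    rw [r3, r4, r1, r2, r5]
    ring

/-- CY-1c. First order terms of the forms over `x`. -/
theorem jet_H {c : Ix → k} (hc : Std c) (h2 : (2 : k) ≠ 0) {x y : Fin 4 → PowerSeries k}
    (h : Near c x y) :
    PowerSeries.constantCoeff (aeval x (cH c 0 0)) = 2 * (2 * mm c * del c) ∧
      (∀ j, j ≠ 0 → PowerSeries.constantCoeff (aeval x (cH c 0 j)) = 0) ∧
      PowerSeries.coeff 1 (aeval x (cH c 0 1)) = 0 ∧
      PowerSeries.coeff 1 (aeval x (cH c 0 2)) =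
        - 2 * (2 * mm c * del c) * PowerSeries.coeff 1 (x 1) ∧
      PowerSeries.coeff 1 (aeval x (cH c 0 3)) =
        - 2 * F2 c * PowerSeries.coeff 1 (x 1) - 4 * mm c * PowerSeries.coeff 1 (x 3) := by
  have px : Pt x := ⟨h.x0, h.cx⟩
  obtain ⟨g1, g2, g3⟩ := jet_on hc h2 h
  obtain ⟨l00, l01, l02, l03, l10, l11, l12, l13⟩ := std_L hc
  obtain ⟨m00, m01, m02, m03, m10, m11, m12, m13⟩ := std_M hc
  obtain ⟨n00, n10, n20, n30⟩ := N4_c0 (fun i => aeval x (lin (fun i j => pL c j i) i))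
    (fun i => aeval x (lin (fun i j => pL' c j i) i))
  obtain ⟨n01, n11, n21, n31⟩ := N4_c1 (fun i => aeval x (lin (fun i j => pL c j i) i))
    (fun i => aeval x (lin (fun i j => pL' c j i) i))
  obtain ⟨n02, n12, n22, n32⟩ := N4_c2 (fun i => aeval x (lin (fun i j => pL c j i) i))
    (fun i => aeval x (lin (fun i j => pL' c j i) i))
  obtain ⟨n03, n13, n23, n33⟩ := N4_c3 (fun i => aeval x (lin (fun i j => pL c j i) i))
    (fun i => aeval x (lin (fun i j => pL' c j i) i))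
  have q4 : ∀ j, pQ c 0 0 j 0 = 0 := fun j => by rw [← pQ_symm']; exact hc.q00 j
  have hR : pQ c 0 0 3 3 = 2 * mm c * del c := hc.qR
  have two1 : PowerSeries.coeff 1 (2 : PowerSeries k) = 0 := by
    have : (2 : PowerSeries k) = algebraMap k (PowerSeries k) 2 := (map_ofNat _ 2).symm
    rw [this, c1_C]
  have two0 : PowerSeries.constantCoeff (2 : PowerSeries k) = 2 := map_ofNat _ _
  refine ⟨?_, ?_, ?_, ?_, ?_⟩
  · rw [cH, aeval_chow4, gram_eq]
    simp only [Fin.sum_univ_four, n00, n10, n20, n30, plk, Matrix.map_apply, map_mul, map_add,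
      map_neg, map_sub, map_zero, two0, px.lin0, px.quad0, l00, l01, l02, l03, m00, m01, m02, m03,
      hR]
    ring
  · intro j hj
    rw [cH, aeval_chow4, gram_eq]
    fin_cases j
    · exact absurd rfl hj
    · simp only [Fin.sum_univ_four, Fin.mk_one, Fin.reduceFinMk, n00, n10, n20, n30, n01, n11,
        n21, n31, plk, Matrix.map_apply, map_mul, map_add, map_neg, map_sub, map_zero, two0,
        px.lin0, px.quad0, l00, l01, l02, l03, m00, m01, m02, m03, hR, hc.q00, q4]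
      ring
    · simp only [Fin.sum_univ_four, Fin.mk_one, Fin.reduceFinMk, n00, n10, n20, n30, n02, n12,
        n22, n32, plk, Matrix.map_apply, map_mul, map_add, map_neg, map_sub, map_zero, two0,
        px.lin0, px.quad0, l00, l01, l02, l03, m00, m01, m02, m03, hR, hc.q00, q4]
      ring
    · simp only [Fin.sum_univ_four, Fin.mk_one, Fin.reduceFinMk, n00, n10, n20, n30, n03, n13,
        n23, n33, plk, Matrix.map_apply, map_mul, map_add, map_neg, map_sub, map_zero, two0,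
        px.lin0, px.quad0, l00, l01, l02, l03, m00, m01, m02, m03, hR, hc.q00, q4]
      ring
  · rw [cH, aeval_chow4, gram_eq]
    simp only [Fin.sum_univ_four, n00, n10, n20, n30, n01, n11, n21, n31, plk, Matrix.map_apply,
      map_mul, map_add, map_neg, map_sub, map_zero, c1_mul, two0, two1, px.lin0, px.quad0,
      px.lin1, px.quad1, l00, l01, l02, l03, l10, l11, l12, l13, m00, m01, m02, m03, m10, m11,
      m12, m13, hc.l2, hc.m2, hc.m3, hc.l3, hR, hc.q00, q4, g1]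
    ring
  · rw [cH, aeval_chow4, gram_eq]
    simp only [Fin.sum_univ_four, n00, n10, n20, n30, n02, n12, n22, n32, plk, Matrix.map_apply,
      map_mul, map_add, map_neg, map_sub, map_zero, c1_mul, two0, two1, px.lin0, px.quad0,
      px.lin1, px.quad1, l00, l01, l02, l03, l10, l11, l12, l13, m00, m01, m02, m03, m10, m11,
      m12, m13, hc.l2, hc.m2, hc.m3, hc.l3, hR, hc.q00, q4, g1]
    ring
  · rw [cH, aeval_chow4, gram_eq]
    simp only [Fin.sum_univ_four, n00, n10, n20, n30, n03, n13, n23, n33, plk, Matrix.map_apply,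
      map_mul, map_add, map_neg, map_sub, map_zero, c1_mul, two0, two1, px.lin0, px.quad0,
      px.lin1, px.quad1, l00, l01, l02, l03, l10, l11, l12, l13, m00, m01, m02, m03, m10, m11,
      m12, m13, hc.l2, hc.m2, hc.m3, hc.l3, hR, hc.q00, q4, g1, F2, mm]
    have r1 := pQ_symm c 1 0 3 0
    have r2 := pQ_symm c 3 0 3 0
    have r3 := pQ_symm' c 0 1 3 0
    have r4 := pQ_symm' c 0 3 3 0
    have r5 := pQ_symm' c 0 0 3 2
    rw [r1, r2, r3, r4, r5]
    ring

end Pool.Agent.Helper12.CYJ
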